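import Mathlib

set_option autoImplicit false

namespace Pool.Agent.AL

open Equiv

/-- Automorphic loops. -/
class ALoop (Q : Type) extends Mul Q, One Q where
  one_mul' : ∀ x : Q, 1 * x = x
  mul_one' : ∀ x : Q, x * 1 = x
  bijL : ∀ x : Q, Function.Bijective (fun y : Q => x * y)
  bijR : ∀ x : Q, Function.Bijective (fun y : Q => y * x)
  autL : ∀ x y u v a b : Q, (x * y) * a = x * (y * u) → (x * y) * b = x * (y * v) →
    (x * y) * (a * b) = x * (y * (u * v))
  autT : ∀ x u v a b : Q, a * x = x * u → b * x = x * v → (a * b) * x = x * (u * v)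

variable {Q : Type} [ALoop Q]

@[simp] theorem om (x : Q) : 1 * x = x := ALoop.one_mul' x
@[simp] theorem mo (x : Q) : x * 1 = x := ALoop.mul_one' x

theorem lc {x y z : Q} (h : x * y = x * z) : y = z := (ALoop.bijL x).1 h
theorem rc {x y z : Q} (h : y * x = z * x) : y = z := (ALoop.bijR x).1 h

noncomputable def L (x : Q) : Perm Q := Equiv.ofBijective _ (ALoop.bijL x)
noncomputable def R (x : Q) : Perm Q := Equiv.ofBijective _ (ALoop.bijR x)

@[simp] theorem L_app (x y : Q) : L x y = x * y := rfl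
@[simp] theorem R_app (x y : Q) : R x y = y * x := rfl

variable (Q) in
def Mlt : Subgroup (Perm Q) := Subgroup.closure (Set.range L ∪ Set.range R)

variable (Q) in
/-- The multiplication group. -/
abbrev G : Type := ↥(Mlt Q)

noncomputable def l (x : Q) : G Q := ⟨L x, Subgroup.subset_closure (Or.inl ⟨x, rfl⟩)⟩
noncomputable def r (x : Q) : G Q := ⟨R x, Subgroup.subset_closure (Or.inr ⟨x, rfl⟩)⟩

@[simp] theorem l_smul (x y : Q) : l x • y = x * y := rfl
@[simp] theorem r_smul (x y : Q) : r x • y = y * x := rfl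

theorem gext {g h : G Q} (H : ∀ y : Q, g • y = h • y) : g = h :=
  Subtype.ext (Equiv.ext H)

theorem G_ind {p : G Q → Prop} (hl : ∀ x, p (l x)) (hr : ∀ x, p (r x)) (h1 : p 1)
    (hm : ∀ g h, p g → p h → p (g * h)) (hi : ∀ g, p g → p g⁻¹) (g : G Q) : p g := by
  obtain ⟨g, hg⟩ := g
  induction hg using Subgroup.closure_induction with
  | mem x hx =>
    rcases hx with ⟨x, rfl⟩ | ⟨x, rfl⟩
    · exact hl x
    · exact hr x
  | one => exact h1
  | mul x y hx hy px py => exact hm ⟨x, hx⟩ ⟨y, hy⟩ px py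
  | inv x hx px => exact hi ⟨x, hx⟩ px

/-- `g` acts as an automorphism. -/
def IsAut (g : G Q) : Prop := ∀ u v : Q, g • (u * v) = g • u * g • v

theorem IsAut.mul {g h : G Q} (a : IsAut g) (b : IsAut h) : IsAut (g * h) := fun u v => by
  rw [mul_smul, mul_smul, mul_smul, b, a]

theorem IsAut.inv {g : G Q} (a : IsAut g) : IsAut g⁻¹ := fun u v => by
  rw [inv_smul_eq_iff, a, smul_inv_smul, smul_inv_smul]

theorem IsAut.one : IsAut (1 : G Q) := fun u v => by simp

theorem IsAut.conjl {g : G Q} (a : IsAut g) (x : Q) : g * l x = l (g • x) * g :=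
  gext fun y => by simp [mul_smul, a x y]

theorem IsAut.conjr {g : G Q} (a : IsAut g) (x : Q) : g * r x = r (g • x) * g :=
  gext fun y => by simp [mul_smul, a y x]

theorem IsAut.fix {g : G Q} (a : IsAut g) : g • (1 : Q) = 1 := by
  have := a 1 1
  rw [om] at this
  apply lc (x := g • (1 : Q))
  rw [← this, mo]

theorem autLL (x y : Q) : IsAut ((l (x * y))⁻¹ * (l x * l y)) := fun u v => by
  rw [mul_smul, inv_smul_eq_iff, l_smul]
  symm
  apply ALoop.autL
  · rw [mul_smul, ← l_smul (x * y), smul_inv_smul]; rfl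
  · rw [mul_smul, ← l_smul (x * y), smul_inv_smul]; rfl

theorem autTT (x : Q) : IsAut ((r x)⁻¹ * l x) := fun u v => by
  rw [mul_smul, inv_smul_eq_iff, r_smul]
  symm
  apply ALoop.autT
  · rw [mul_smul, ← r_smul x, smul_inv_smul]; rfl
  · rw [mul_smul, ← r_smul x, smul_inv_smul]; rfl

theorem l_one : l (1 : Q) = 1 := gext fun y => by simp
theorem r_one : r (1 : Q) = 1 := gext fun y => by simp

theorem aut_aux (g : G Q) : IsAut ((l (g • (1 : Q)))⁻¹ * g) := by
  induction g using G_ind with
  | hl x => simpa using IsAut.one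
  | hr x => simpa using (autTT x).inv
  | h1 => simpa [l_one] using IsAut.one
  | hm g h pg ph =>
    set a := g • (1 : Q)
    set b := h • (1 : Q)
    set f := (l a)⁻¹ * g
    have e1 : (g * h) • (1 : Q) = a * f • b := by
      rw [← l_smul, ← mul_smul]; simp [f, b, mul_smul]
    have e2 : (l (a * f • b))⁻¹ * (g * h) =
        ((l (a * f • b))⁻¹ * (l a * l (f • b))) * (f * ((l b)⁻¹ * h)) := by
      have := pg.conjl b
      rw [mul_assoc, mul_assoc, ← mul_assoc (l (f • b)), ← this]
      simp [f, mul_assoc]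
    rw [e1, e2]
    exact (autLL _ _).mul (pg.mul ph)
  | hi g pg =>
    set a := g • (1 : Q)
    set f := (l a)⁻¹ * g
    set c := g⁻¹ • (1 : Q)
    have e0 : a * f • c = 1 := by
      rw [← l_smul, ← mul_smul]; simp [f, c]
    have h := autLL a (f • c)
    rw [e0, l_one, inv_one, one_mul] at h
    have e2 : (l c)⁻¹ * g⁻¹ = f⁻¹ * (l a * l (f • c))⁻¹ := by
      have := pg.conjl c
      rw [← mul_inv_rev, ← mul_inv_rev, mul_assoc, ← this]
      simp [f, mul_assoc]
    rw [e2]
    exact pg.inv.mul h.inv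

/-- Inner mappings are automorphisms. -/
theorem inn {g : G Q} (h : g • (1 : Q) = 1) : IsAut g := by
  simpa [h, l_one] using aut_aux g

theorem exl (x y : Q) : ∃ z, x * z = y := (ALoop.bijL x).2 y
theorem exr (x y : Q) : ∃ z, z * x = y := (ALoop.bijR x).2 y

/-- Every `g` maps `x * a` to `g x * f a` with `f` inner. -/
theorem shift (g : G Q) (x : Q) :
    ∃ f : G Q, f • (1 : Q) = 1 ∧ g * l x = l (g • x) * f :=
  ⟨(l (g • x))⁻¹ * (g * l x), by simp [mul_smul, inv_smul_eq_iff], by simp⟩

theorem flex (x y : Q) : (x * y) * x = x * (y * x) := by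
  have h := (autTT x).conjl x
  have e : ((r x)⁻¹ * l x) • x = x := by simp [mul_smul, inv_smul_eq_iff]
  rw [e] at h
  have h2 : l x * r x = r x * l x := by
    have : r x * ((r x)⁻¹ * l x * l x) * (l x)⁻¹ * r x
      = r x * (l x * ((r x)⁻¹ * l x)) * (l x)⁻¹ * r x := by rw [h]
    simpa [mul_assoc] using this
  have := congrArg (· • y) h2
  simpa [mul_smul] using this.symm

/-- Two-sided inverse. -/
noncomputable def iv (x : Q) : Q := (l x)⁻¹ • (1 : Q)

theorem mul_iv (x : Q) : x * iv x = 1 := by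
  rw [← l_smul, iv, smul_inv_smul]

theorem iv_mul (x : Q) : iv x * x = 1 := by
  apply lc (x := x)
  rw [← flex, mul_iv, om, mo]

theorem iv_uniq {x y : Q} (h : x * y = 1) : y = iv x := lc (h.trans (mul_iv x).symm)

@[simp] theorem iv_iv (x : Q) : iv (iv x) = x := (iv_uniq (iv_mul x)).symm

@[simp] theorem iv_one : iv (1 : Q) = 1 := (iv_uniq (om 1)).symm

theorem IsAut.iv {g : G Q} (a : IsAut g) (x : Q) : g • iv x = iv (g • x) :=
  iv_uniq (by rw [← a, mul_iv, a.fix])

/-- The antiautomorphic inverse property. -/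
theorem aaip (y s : Q) : iv (y * s) = iv s * iv y := by
  set x := iv (y * s) with hx
  have h := autLL x y
  set f := (l (x * y))⁻¹ * (l x * l y)
  have f1 : f • x = x := by
    simp only [f, mul_smul, inv_smul_eq_iff, l_smul, flex]
  have f2 : f • s = iv (x * y) := by
    apply iv_uniq
    rw [← l_smul]; simp [f, mul_smul, hx, iv_mul]
  have f3 : (x * y) * f • iv y = x := by
    rw [← l_smul]; simp [f, mul_smul, mul_iv]
  have : f • (iv s * iv y) = f • x := by
    rw [h, h.iv s, f2, iv_iv, f3, f1]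
  exact (smul_left_cancel f this).symm

instance [Finite Q] : Finite (G Q) := inferInstance

end Pool.Agent.AL
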