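import Pool.Agent.H.MP_428e1d_al.A

set_option autoImplicit false

namespace Pool.Agent.AL

open Equiv

variable {Q : Type} [ALoop Q]

/-- Subloops (of a finite loop). -/
structure Sub (S : Set Q) : Prop where
  one : (1 : Q) ∈ S
  mul : ∀ {a b : Q}, a ∈ S → b ∈ S → a * b ∈ S

/-- Normal subloops. -/
structure Nrm (A : Set Q) : Prop extends Sub A where
  inn : ∀ (f : G Q) {a : Q}, f • (1 : Q) = 1 → a ∈ A → f • a ∈ A

theorem Sub.ldiv [Finite Q] {S : Set Q} (h : Sub S) {a x : Q} (ha : a ∈ S) (hx : a * x ∈ S) :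
    x ∈ S := by
  have hi : Function.Injective (fun y : S => (⟨a * y, h.mul ha y.2⟩ : S)) :=
    fun u v e => Subtype.ext (lc (congrArg Subtype.val e))
  obtain ⟨y, hy⟩ := Finite.surjective_of_injective hi ⟨_, hx⟩
  rw [← lc (congrArg Subtype.val hy)]; exact y.2

theorem Sub.rdiv [Finite Q] {S : Set Q} (h : Sub S) {a x : Q} (ha : a ∈ S) (hx : x * a ∈ S) :
    x ∈ S := by
  have hi : Function.Injective (fun y : S => (⟨y * a, h.mul y.2 ha⟩ : S)) :=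
    fun u v e => Subtype.ext (rc (congrArg Subtype.val e))
  obtain ⟨y, hy⟩ := Finite.surjective_of_injective hi ⟨_, hx⟩
  rw [← rc (congrArg Subtype.val hy)]; exact y.2

def Rel (A : Set Q) (x y : Q) : Prop := ∃ a ∈ A, y = x * a

theorem Nrm.smul {A : Set Q} (h : Nrm A) (g : G Q) {x y : Q} (e : Rel A x y) :
    Rel A (g • x) (g • y) := by
  obtain ⟨a, ha, rfl⟩ := e
  obtain ⟨f, f1, hf⟩ := shift g x
  refine ⟨f • a, h.inn f f1 ha, ?_⟩
  have := congrArg (· • a) hf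
  simpa [mul_smul] using this

theorem rel_one {A : Set Q} {y : Q} : Rel A 1 y ↔ y ∈ A := by simp [Rel]

theorem Nrm.refl {A : Set Q} (h : Nrm A) (x : Q) : Rel A x x := ⟨1, h.one, by simp⟩

theorem Nrm.symm [Finite Q] {A : Set Q} (h : Nrm A) {x y : Q} (e : Rel A x y) : Rel A y x := by
  obtain ⟨a, ha, rfl⟩ := e
  have h1 : Rel A a 1 := ⟨iv a, h.ldiv ha (by rw [mul_iv]; exact h.one), (mul_iv a).symm⟩
  simpa using h.smul (l x) h1

theorem Nrm.trans {A : Set Q} (h : Nrm A) {x y z : Q} (e : Rel A x y) (e' : Rel A y z) :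
    Rel A x z := by
  obtain ⟨a, ha, rfl⟩ := e
  obtain ⟨b, hb, hb'⟩ := h.smul (l x)⁻¹ e'
  rw [← l_smul x a, inv_smul_smul, inv_smul_eq_iff] at hb'
  exact ⟨_, h.mul ha hb, hb'⟩

variable [Finite Q] {A : Set Q}

def Nrm.st (h : Nrm A) : Setoid Q := ⟨Rel A, h.refl, h.symm, h.trans⟩

/-- The quotient loop. -/
def Nrm.Qt (h : Nrm A) : Type := Quotient h.st

def Nrm.cl (h : Nrm A) (x : Q) : h.Qt := Quotient.mk h.st x

theorem Nrm.mk_eq (h : Nrm A) {x y : Q} : h.cl x = h.cl y ↔ Rel A x y := Quotient.eq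

theorem Nrm.mk_surj (h : Nrm A) (s : h.Qt) : ∃ x, h.cl x = s := Quotient.exists_rep s

instance (h : Nrm A) : Finite h.Qt := Quotient.finite _

instance (h : Nrm A) : Mul h.Qt :=
  ⟨Quotient.map₂ (· * ·) fun _ x' hx y _ hy =>
    h.trans (h.smul (r y) hx) (h.smul (l x') hy)⟩

instance (h : Nrm A) : One h.Qt := ⟨h.cl 1⟩

theorem Nrm.mk_mul (h : Nrm A) (x y : Q) : h.cl (x * y) = h.cl x * h.cl y := rfl
theorem Nrm.mk_one (h : Nrm A) : h.cl 1 = 1 := rfl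

theorem Nrm.qlc (h : Nrm A) {x y z : h.Qt} (e : x * y = x * z) : y = z := by
  obtain ⟨x, rfl⟩ := h.mk_surj x
  obtain ⟨y, rfl⟩ := h.mk_surj y
  obtain ⟨z, rfl⟩ := h.mk_surj z
  rw [← h.mk_mul, ← h.mk_mul, h.mk_eq] at e
  have := h.smul (l x)⁻¹ e
  rw [← l_smul, ← l_smul x z, inv_smul_smul, inv_smul_smul] at this
  exact h.mk_eq.2 this

theorem Nrm.qrc (h : Nrm A) {x y z : h.Qt} (e : y * x = z * x) : y = z := by
  obtain ⟨x, rfl⟩ := h.mk_surj x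
  obtain ⟨y, rfl⟩ := h.mk_surj y
  obtain ⟨z, rfl⟩ := h.mk_surj z
  rw [← h.mk_mul, ← h.mk_mul, h.mk_eq] at e
  have := h.smul (r x)⁻¹ e
  rw [← r_smul, ← r_smul x z, inv_smul_smul, inv_smul_smul] at this
  exact h.mk_eq.2 this

instance (h : Nrm A) : ALoop h.Qt where
  one_mul' x := by obtain ⟨x, rfl⟩ := h.mk_surj x; rw [← h.mk_one, ← h.mk_mul, om]
  mul_one' x := by obtain ⟨x, rfl⟩ := h.mk_surj x; rw [← h.mk_one, ← h.mk_mul, mo]
  bijL x := Finite.injective_iff_bijective.1 fun _ _ e => h.qlc e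
  bijR x := Finite.injective_iff_bijective.1 fun _ _ e => h.qrc e
  autL x y u v a b e1 e2 := by
    obtain ⟨x, rfl⟩ := h.mk_surj x
    obtain ⟨y, rfl⟩ := h.mk_surj y
    obtain ⟨u, rfl⟩ := h.mk_surj u
    obtain ⟨v, rfl⟩ := h.mk_surj v
    obtain ⟨a', ha⟩ := exl (x * y) (x * (y * u))
    obtain ⟨b', hb⟩ := exl (x * y) (x * (y * v))
    have ea : a = h.cl a' := h.qlc (e1.trans (by simp only [← h.mk_mul, ha]))
    have eb : b = h.cl b' := h.qlc (e2.trans (by simp only [← h.mk_mul, hb]))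
    simp only [ea, eb, ← h.mk_mul, ALoop.autL x y u v a' b' ha hb]
  autT x u v a b e1 e2 := by
    obtain ⟨x, rfl⟩ := h.mk_surj x
    obtain ⟨u, rfl⟩ := h.mk_surj u
    obtain ⟨v, rfl⟩ := h.mk_surj v
    obtain ⟨a', ha⟩ := exr x (x * u)
    obtain ⟨b', hb⟩ := exr x (x * v)
    have ea : a = h.cl a' := h.qrc (e1.trans (by simp only [← h.mk_mul, ha]))
    have eb : b = h.cl b' := h.qrc (e2.trans (by simp only [← h.mk_mul, hb]))
    simp only [ea, eb, ← h.mk_mul, ALoop.autT x u v a' b' ha hb]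

def Nrm.pm (h : Nrm A) : G Q →* Perm h.Qt where
  toFun g :=
    { toFun := Quotient.map (g • ·) fun _ _ e => h.smul g e
      invFun := Quotient.map (g⁻¹ • ·) fun _ _ e => h.smul g⁻¹ e
      left_inv := fun s => by
        obtain ⟨x, rfl⟩ := h.mk_surj s
        exact congrArg h.cl (inv_smul_smul g x)
      right_inv := fun s => by
        obtain ⟨x, rfl⟩ := h.mk_surj s
        exact congrArg h.cl (smul_inv_smul g x) }
  map_one' := Equiv.ext fun s => by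
    obtain ⟨x, rfl⟩ := h.mk_surj s
    exact congrArg h.cl (one_smul _ x)
  map_mul' g g' := Equiv.ext fun s => by
    obtain ⟨x, rfl⟩ := h.mk_surj s
    exact congrArg h.cl (mul_smul g g' x)

theorem Nrm.pm_l (h : Nrm A) (x : Q) : h.pm (l x) = (l (h.cl x)).1 := Equiv.ext fun s => by
  obtain ⟨y, rfl⟩ := h.mk_surj s; rfl

theorem Nrm.pm_r (h : Nrm A) (x : Q) : h.pm (r x) = (r (h.cl x)).1 := Equiv.ext fun s => by
  obtain ⟨y, rfl⟩ := h.mk_surj s; rfl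

theorem Nrm.pm_mem (h : Nrm A) (g : G Q) : h.pm g ∈ Mlt h.Qt := by
  induction g using G_ind with
  | hl x => rw [h.pm_l]; exact (l _).2
  | hr x => rw [h.pm_r]; exact (r _).2
  | h1 => rw [map_one]; exact one_mem _
  | hm g g' a b => rw [map_mul]; exact mul_mem a b
  | hi g a => rw [map_inv]; exact inv_mem a

/-- The induced map of multiplication groups. -/
def Nrm.pi (h : Nrm A) : G Q →* G h.Qt := h.pm.codRestrict _ h.pm_mem

theorem Nrm.pi_smul (h : Nrm A) (g : G Q) (x : Q) : h.pi g • h.cl x = h.cl (g • x) := rfl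

theorem Nrm.pi_l (h : Nrm A) (x : Q) : h.pi (l x) = l (h.cl x) := Subtype.ext (h.pm_l x)
theorem Nrm.pi_r (h : Nrm A) (x : Q) : h.pi (r x) = r (h.cl x) := Subtype.ext (h.pm_r x)

theorem Nrm.pi_surj (h : Nrm A) : Function.Surjective h.pi := fun g => by
  induction g using G_ind with
  | hl x => obtain ⟨x, rfl⟩ := h.mk_surj x; exact ⟨_, h.pi_l x⟩
  | hr x => obtain ⟨x, rfl⟩ := h.mk_surj x; exact ⟨_, h.pi_r x⟩
  | h1 => exact ⟨1, map_one _⟩
  | hm g g' a b => obtain ⟨a, rfl⟩ := a; obtain ⟨b, rfl⟩ := b; exact ⟨a * b, map_mul _ _ _⟩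
  | hi g a => obtain ⟨a, rfl⟩ := a; exact ⟨a⁻¹, map_inv _ _⟩

theorem Nrm.mem_ker (h : Nrm A) {g : G Q} : g ∈ h.pi.ker ↔ ∀ x, Rel A x (g • x) := by
  rw [MonoidHom.mem_ker]
  constructor
  · intro e x
    rw [← h.mk_eq, ← h.pi_smul, e, one_smul]
  · intro e
    refine gext fun s => ?_
    obtain ⟨x, rfl⟩ := h.mk_surj s
    rw [h.pi_smul, one_smul, eq_comm, h.mk_eq]; exact e x

theorem Nrm.ncard_pre (h : Nrm A) (S : Set h.Qt) :
    (h.cl ⁻¹' S).ncard = S.ncard * A.ncard := by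
  choose o ho using h.mk_surj
  rw [← Set.ncard_prod]
  symm
  refine Set.ncard_congr (fun p _ => o p.1 * p.2) ?_ ?_ ?_
  · rintro ⟨s, a⟩ ⟨hs, ha⟩
    have : h.cl (o s * a) = s := by
      rw [← ho s, eq_comm, h.mk_eq, ho s]; exact ⟨a, ha, rfl⟩
    simpa [this] using hs
  · rintro ⟨s, a⟩ ⟨t, b⟩ ⟨-, ha⟩ ⟨-, hb⟩ e
    have e1 : h.cl (o s) = h.cl (o s * a) := h.mk_eq.2 ⟨a, ha, rfl⟩
    have e2 : h.cl (o t) = h.cl (o t * b) := h.mk_eq.2 ⟨b, hb, rfl⟩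
    dsimp only at e
    have e3 : s = t := by rw [← ho s, ← ho t, e1, e2, e]
    subst e3
    rw [lc e]
  · intro x hx
    obtain ⟨a, ha, e⟩ := h.mk_eq.1 (ho (h.cl x))
    exact ⟨(h.cl x, a), ⟨hx, ha⟩, e.symm⟩

theorem Nrm.card (h : Nrm A) : Nat.card Q = Nat.card h.Qt * A.ncard := by
  have := h.ncard_pre Set.univ
  rwa [Set.preimage_univ, Set.ncard_univ, Set.ncard_univ] at this

omit [Finite Q] in
theorem ncard_cls (y : Q) : {z | Rel A y z}.ncard = A.ncard := by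
  rw [← Set.ncard_image_of_injective A (ALoop.bijL y).1]
  congr 1; ext z; simp [Rel, eq_comm]

theorem Nrm.ncard_sec (h : Nrm A) {T : Set Q} (h1 : ∀ y, ∃ t ∈ T, Rel A y t)
    (h2 : ∀ t ∈ T, ∀ t' ∈ T, Rel A t t' → t = t') : T.ncard = Nat.card h.Qt := by
  rw [← Set.ncard_univ]
  refine Set.ncard_congr (fun t _ => h.cl t) (fun _ _ => trivial)
    (fun t t' a b e => h2 t a t' b (h.mk_eq.1 e)) fun s _ => ?_
  obtain ⟨y, rfl⟩ := h.mk_surj s
  obtain ⟨t, ht, e⟩ := h1 y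
  exact ⟨t, ht, (h.mk_eq.2 e).symm⟩

theorem Nrm.pre_sub (h : Nrm A) {S : Set h.Qt} (hS : Sub S) : Sub (h.cl ⁻¹' S) :=
  ⟨hS.one, fun a b => hS.mul a b⟩

theorem Nrm.pre_nrm (h : Nrm A) {S : Set h.Qt} (hS : Nrm S) : Nrm (h.cl ⁻¹' S) :=
  ⟨h.pre_sub hS.toSub, fun f a f1 ha => by
    have := hS.inn (h.pi f) (by rw [← h.mk_one, h.pi_smul, f1]) ha
    rwa [h.pi_smul] at this⟩

/-- A subloop as a loop. -/
@[reducible] def Sub.loop {S : Set Q} (h : Sub S) : ALoop S where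
  mul a b := ⟨a * b, h.mul a.2 b.2⟩
  one := ⟨1, h.one⟩
  one_mul' x := Subtype.ext (om x.1)
  mul_one' x := Subtype.ext (mo x.1)
  bijL _ := Finite.injective_iff_bijective.1 fun _ _ e => Subtype.ext (lc (congrArg Subtype.val e))
  bijR _ := Finite.injective_iff_bijective.1 fun _ _ e => Subtype.ext (rc (congrArg Subtype.val e))
  autL x y u v a b e1 e2 := Subtype.ext (ALoop.autL x.1 y.1 u.1 v.1 a.1 b.1
    (congrArg Subtype.val e1) (congrArg Subtype.val e2))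
  autT x u v a b e1 e2 := Subtype.ext (ALoop.autT x.1 u.1 v.1 a.1 b.1
    (congrArg Subtype.val e1) (congrArg Subtype.val e2))

variable (Q) in
/-- Solvability. -/
def Solv : Prop := ∃ (n : ℕ) (S : ℕ → Set Q), S 0 = {1} ∧ S n = Set.univ ∧
  ∀ i < n, Sub (S i) ∧ ∀ x ∈ S (i + 1), ∀ y ∈ S (i + 1), ∀ z ∈ S (i + 1),
    (∃ m ∈ S i, (x * y) * z = (x * (y * z)) * m) ∧ (∃ m ∈ S i, x * y = (y * x) * m)

theorem Solv.qt (s : Solv Q) (h : Nrm A) : Solv h.Qt := by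
  obtain ⟨n, S, s0, sn, hs⟩ := s
  refine ⟨n, fun i => h.cl '' S i, by simp [s0, h.mk_one], ?_, fun i hi => ⟨⟨⟨1, (hs i hi).1.one, rfl⟩, ?_⟩, ?_⟩⟩
  · simp only [sn, Set.image_univ, Set.range_eq_univ]; exact h.mk_surj
  · rintro _ _ ⟨a, ha, rfl⟩ ⟨b, hb, rfl⟩
    exact ⟨a * b, (hs i hi).1.mul ha hb, rfl⟩
  · rintro _ ⟨x, hx, rfl⟩ _ ⟨y, hy, rfl⟩ _ ⟨z, hz, rfl⟩
    obtain ⟨⟨m, hm, e⟩, ⟨m', hm', e'⟩⟩ := (hs i hi).2 x hx y hy z hz
    exact ⟨⟨_, ⟨m, hm, rfl⟩, congrArg h.cl e⟩, ⟨_, ⟨m', hm', rfl⟩, congrArg h.cl e'⟩⟩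

theorem Solv.sub (s : Solv Q) {T : Set Q} (h : Sub T) : @Solv T h.loop := by
  let _ := h.loop
  obtain ⟨n, S, s0, sn, hs⟩ := s
  refine ⟨n, fun i => Subtype.val ⁻¹' S i, ?_, by simp [sn],
    fun i hi => ⟨⟨(hs i hi).1.one, fun a b => (hs i hi).1.mul a b⟩, ?_⟩⟩
  · ext x; simp only [s0, Set.mem_preimage, Set.mem_singleton_iff]
    exact ⟨fun e => Subtype.ext e, fun e => congrArg Subtype.val e⟩
  · intro x hx y hy z hz
    obtain ⟨⟨m, hm, e⟩, ⟨m', hm', e'⟩⟩ := (hs i hi).2 x hx y hy z hz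
    refine ⟨⟨⟨m, h.ldiv (x * (y * z)).2 ?_⟩, hm, Subtype.ext e⟩,
      ⟨⟨m', h.ldiv (y * x).2 ?_⟩, hm', Subtype.ext e'⟩⟩
    · exact e ▸ ((x * y) * z).2
    · exact e' ▸ (x * y).2

/-- Minimal normal subloops. -/
structure MinN (A : Set Q) : Prop extends Nrm A where
  ne : A ≠ {1}
  min : ∀ B, Nrm B → B ⊆ A → B ≠ {1} → B = A

theorem exists_min {N : Set Q} (hN : Nrm N) (hne : N ≠ {1}) : ∃ A ⊆ N, MinN A := by
  obtain ⟨A, ⟨hA, h1, h2⟩, hm⟩ := (wellFounded_lt (α := Set Q)).has_min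
    {A | Nrm A ∧ A ≠ {1} ∧ A ⊆ N} ⟨N, hN, hne, subset_rfl⟩
  refine ⟨A, h2, hA, h1, fun B hB hBA hB1 => ?_⟩
  by_contra hc
  exact hm B ⟨hB, hB1, hBA.trans h2⟩ (lt_of_le_of_ne hBA hc)

omit [Finite Q] in
theorem nrm_univ : Nrm (Set.univ : Set Q) := ⟨⟨trivial, fun _ _ => trivial⟩, fun _ _ _ _ => trivial⟩

/-- `A` is an abelian group. -/
def Ab (A : Set Q) : Prop :=
  ∀ x ∈ A, ∀ y ∈ A, x * y = y * x ∧ ∀ z ∈ A, (x * y) * z = x * (y * z)

theorem Solv.ab (s : Solv Q) (h : MinN A) : Ab A := by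
  obtain ⟨n, S, s0, sn, hs⟩ := s
  have ex : ∃ i, A ⊆ S i := ⟨n, by simp [sn]⟩
  classical
  have h0 : Nat.find ex ≠ 0 := fun e => by
    have := Nat.find_spec ex
    rw [e, s0] at this
    exact h.ne (Set.Subset.antisymm this (by simpa using h.one))
  obtain ⟨i, hi⟩ := Nat.exists_eq_succ_of_ne_zero h0
  have h1 : A ⊆ S (i + 1) := by have := Nat.find_spec ex; rwa [hi] at this
  have h2 : ¬ A ⊆ S i := Nat.find_min ex (by omega)
  have h3 : i < n := by have := Nat.find_min' ex (m := n) (by simp [sn]); omega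
  obtain ⟨hS, hc⟩ := hs i h3
  set B : Set Q := {a | a ∈ A ∧ ∀ f : G Q, f • (1 : Q) = 1 → f • a ∈ S i}
  have hB : Nrm B := ⟨⟨⟨h.one, fun f f1 => by rw [f1]; exact hS.one⟩, fun a b =>
    ⟨h.mul a.1 b.1, fun f f1 => by rw [inn f1]; exact hS.mul (a.2 f f1) (b.2 f f1)⟩⟩,
    fun g a g1 ha => ⟨h.inn g g1 ha.1, fun f f1 => by
      rw [← mul_smul]; exact ha.2 _ (by rw [mul_smul, g1, f1])⟩⟩
  have hB1 : B = {1} := by
    by_contra hc
    apply h2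
    rw [← h.min B hB (fun _ a => a.1) hc]
    intro a ha; simpa using ha.2 1 (one_smul _ _)
  intro x hx y hy
  constructor
  · obtain ⟨m, hm⟩ := exl (y * x) (x * y)
    have : m ∈ B := ⟨h.ldiv (h.mul hy hx) (hm ▸ h.mul hx hy), fun f f1 => by
      obtain ⟨m', hm', e⟩ := (hc _ (h1 (h.inn f f1 hx)) _ (h1 (h.inn f f1 hy)) _ (h1 h.one)).2
      rw [← inn f1, ← inn f1, ← hm, inn f1] at e
      rw [lc e]; exact hm'⟩
    rw [hB1] at this
    rw [← hm, this, mo]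
  · intro z hz
    obtain ⟨m, hm⟩ := exl (x * (y * z)) ((x * y) * z)
    have : m ∈ B := ⟨h.ldiv (h.mul hx (h.mul hy hz)) (hm ▸ h.mul (h.mul hx hy) hz), fun f f1 => by
      obtain ⟨m', hm', e⟩ := (hc _ (h1 (h.inn f f1 hx)) _ (h1 (h.inn f f1 hy)) _
        (h1 (h.inn f f1 hz))).1
      rw [← inn f1, ← inn f1, ← inn f1, ← inn f1, ← hm, inn f1] at e
      rw [lc e]; exact hm'⟩
    rw [hB1] at this
    rw [← hm, this, mo]

end Pool.Agent.AL
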