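import Pool.Agent.H.MP_428e1d_al.B

set_option autoImplicit false
set_option linter.unusedSectionVars false

namespace Pool.Agent.AL

open Equiv Subgroup

section grp
variable {Γ : Type} [Group Γ] {X : Type} [MulAction Γ X] {p : ℕ} [Fact p.Prime]

theorem fix1 {S : Subgroup Γ} (hS : IsPGroup p S) (Y : Set X)
    (hY : ∀ g ∈ S, ∀ y ∈ Y, g • y ∈ Y) (hc : ¬ p ∣ Y.ncard) : ∃ y ∈ Y, ∀ g ∈ S, g • y = y := by
  let Z : SubMulAction S X := ⟨Y, fun g y hy => hY g g.2 y hy⟩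
  obtain ⟨y, hy⟩ := hS.nonempty_fixed_point_of_prime_not_dvd_card Z hc
  exact ⟨y, y.2, fun g hg => congrArg Subtype.val (hy ⟨g, hg⟩)⟩

theorem fix2 [Finite X] {S : Subgroup Γ} (hS : IsPGroup p S) (Y : Set X)
    (hY : ∀ g ∈ S, ∀ y ∈ Y, g • y ∈ Y) (hc : p ∣ Y.ncard) {y₀ : X} (h0 : y₀ ∈ Y)
    (h1 : ∀ g ∈ S, g • y₀ = y₀) : ∃ y ∈ Y, y ≠ y₀ ∧ ∀ g ∈ S, g • y = y := by
  let Z : SubMulAction S X := ⟨Y, fun g y hy => hY g g.2 y hy⟩
  obtain ⟨y, hy, hn⟩ := hS.exists_fixed_point_of_prime_dvd_card_of_fixed_point Z hc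
    (a := ⟨y₀, h0⟩) (fun g => Subtype.ext (h1 g g.2))
  exact ⟨y, y.2, fun e => hn (Subtype.ext e.symm), fun g hg => congrArg Subtype.val (hy ⟨g, hg⟩)⟩

theorem orb_card [Finite X] {S : Subgroup Γ} (hS : IsPGroup p S) (x : X) :
    ∃ j, {y | ∃ g ∈ S, y = g • x}.ncard = p ^ j := by
  obtain ⟨j, hj⟩ := hS.card_orbit x
  refine ⟨j, ?_⟩
  rw [← hj]
  congr 1
  ext y
  exact ⟨fun ⟨g, hg, e⟩ => ⟨⟨g, hg⟩, e.symm⟩, fun ⟨g, e⟩ => ⟨g, g.2, e.symm⟩⟩

theorem zp_pgroup {g : Γ} {j : ℕ} (h : g ^ p ^ j = 1) : IsPGroup p (zpowers g) := by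
  rintro ⟨_, n, rfl⟩
  refine ⟨j, Subtype.ext ?_⟩
  change (g ^ n) ^ p ^ j = 1
  rw [← zpow_natCast, ← zpow_mul, mul_comm, zpow_mul, zpow_natCast, h, one_zpow]

variable [Finite Γ]

theorem pgroup_of (S : Subgroup Γ)
    (h : ∀ g ∈ S, ∀ q : ℕ, q.Prime → q ≠ p → g ^ q = 1 → g = 1) : IsPGroup p S := by
  rw [IsPGroup.iff_orderOf]
  intro g
  refine ⟨_, Nat.eq_prime_pow_of_unique_prime_dvd (orderOf_pos g).ne' fun {q} hq hd => ?_⟩
  by_contra hne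
  obtain ⟨m, hm⟩ := hd
  have h1 := h (g ^ m).1 (g ^ m).2 q hq hne (by
    rw [← Subgroup.coe_pow, ← pow_mul, mul_comm, ← hm, pow_orderOf_eq_one]; rfl)
  have h2 : orderOf g ∣ m := orderOf_dvd_of_pow_eq_one (Subtype.ext h1)
  have h3 : 0 < m := Nat.pos_of_ne_zero fun e => (orderOf_pos g).ne' (by simp [hm, e])
  have := Nat.le_of_dvd h3 h2
  have := hq.two_le
  nlinarith

theorem ncl_pgroup {C K : Subgroup Γ} [hK : K.Normal] (hCK : C ≤ K)
    (hn : ∀ k ∈ K, ∀ c ∈ C, k * c * k⁻¹ ∈ C) (hp : IsPGroup p C) :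
    IsPGroup p (normalClosure (C : Set Γ)) := by
  obtain ⟨P⟩ : Nonempty (Sylow p K) := inferInstance
  refine (P.isPGroup'.map K.subtype).to_le ?_
  rw [normalClosure, closure_le]
  intro x hx
  obtain ⟨c, hc, hx⟩ := Group.mem_conjugatesOfSet_iff.1 hx
  obtain ⟨g, rfl⟩ := isConj_iff.1 hx
  set D : Subgroup K := C.comap ((MulAut.conj g⁻¹).toMonoidHom.comp K.subtype)
  have hD : ∀ k : K, k ∈ D ↔ g⁻¹ * k * g ∈ C := fun k => by simp [D]
  have : D.Normal := ⟨fun d hd k => by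
    rw [hD] at hd ⊢
    have := hn _ (hK.conj_mem _ k.2 g⁻¹) _ hd
    simpa [mul_assoc] using this⟩
  have hDp : IsPGroup p D := hp.comap_of_injective _
    ((MulAut.conj g⁻¹).injective.comp Subtype.val_injective)
  have hm : (⟨g * c * g⁻¹, hK.conj_mem _ (hCK hc) g⟩ : K) ∈ D := by
    rw [hD]; simpa [mul_assoc] using hc
  exact ⟨_, hDp.le_sylow_of_normal P hm, rfl⟩

theorem sylow_dec {C U : Subgroup Γ} [C.Normal] (h : ∀ u ∈ U, ∃ j, u ^ p ^ j ∈ C)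
    (P : Sylow p U) : ∀ u ∈ U, ∃ c ∈ C, ∃ s ∈ (P : Subgroup U).map U.subtype, u = c * s := by
  intro u hu
  set f : U →* Γ ⧸ C := (QuotientGroup.mk' C).comp U.subtype
  have hp : IsPGroup p f.range := by
    rintro ⟨_, v, rfl⟩
    obtain ⟨j, hj⟩ := h v v.2
    refine ⟨j, Subtype.ext ?_⟩
    change (f v) ^ p ^ j = 1
    rw [← map_pow]
    exact (QuotientGroup.eq_one_iff _).2 hj
  have ht := (P.mapSurjective f.rangeRestrict_surjective).is_maximal' (hp.to_subgroup ⊤) le_top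
  have : f.rangeRestrict ⟨u, hu⟩ ∈ (P : Subgroup U).map f.rangeRestrict := by
    rw [← Sylow.coe_mapSurjective f.rangeRestrict_surjective, ← ht]; trivial
  obtain ⟨s, hs, e⟩ := this
  have e2 : ((s : Γ) : Γ ⧸ C) = u := congrArg Subtype.val e
  refine ⟨u * (s : Γ)⁻¹, ?_, s, ⟨s, hs, rfl⟩, by simp⟩
  rw [← QuotientGroup.eq_one_iff, QuotientGroup.mk_mul, QuotientGroup.mk_inv, e2, mul_inv_cancel]

end grp

variable {Q : Type} [ALoop Q] [Finite Q] {A : Set Q}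

theorem Sub.iv (h : Sub A) {a : Q} (ha : a ∈ A) : iv a ∈ A :=
  h.ldiv ha (by rw [mul_iv]; exact h.one)

@[reducible] noncomputable def Ab.grp (ab : Ab A) (h : Sub A) : CommGroup A where
  mul a b := ⟨a * b, h.mul a.2 b.2⟩
  one := ⟨1, h.one⟩
  inv a := ⟨iv a, h.iv a.2⟩
  mul_assoc a b c := Subtype.ext ((ab _ a.2 _ b.2).2 _ c.2)
  one_mul a := Subtype.ext (om a.1)
  mul_one a := Subtype.ext (mo a.1)
  inv_mul_cancel a := Subtype.ext (iv_mul a.1)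
  mul_comm a b := Subtype.ext (ab _ a.2 _ b.2).1

theorem MinN.prime (h : MinN A) (ab : Ab A) : ∃ p k : ℕ, p.Prime ∧ A.ncard = p ^ (k + 1) := by
  let _ := ab.grp h.toSub
  have h1 : Nat.card A ≠ 1 := fun e => by
    obtain ⟨x, hx⟩ := Set.ncard_eq_one.1 e
    apply h.ne
    have := h.one
    rw [hx] at this ⊢
    rw [this]
  obtain ⟨p, hp, hd⟩ := Nat.exists_prime_and_dvd h1
  have := Fact.mk hp
  obtain ⟨a, ha⟩ := exists_prime_orderOf_dvd_card' p hd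
  set B : Set Q := {x | ∃ hx : x ∈ A, (⟨x, hx⟩ : A) ^ p = 1}
  have hB : Nrm B := ⟨⟨⟨h.one, one_pow _⟩, fun {x y} ⟨hx, ex⟩ ⟨hy, ey⟩ => ⟨h.mul hx hy, by
    change ((⟨x, hx⟩ : A) * ⟨y, hy⟩) ^ p = 1
    rw [mul_pow, ex, ey, one_mul]⟩⟩, fun f x f1 ⟨hx, ex⟩ => ⟨h.inn f f1 hx, by
      let φ : A →* A := MonoidHom.mk' (fun a => ⟨f • a.1, h.inn f f1 a.2⟩)
        fun a b => Subtype.ext (inn f1 _ _)
      change (φ ⟨x, hx⟩) ^ p = 1
      rw [← map_pow, ex, map_one]⟩⟩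
  have hBA := h.min B hB (fun _ ⟨hx, _⟩ => hx) fun e => by
    have : a.1 ∈ B := ⟨a.2, by rw [← ha]; exact pow_orderOf_eq_one a⟩
    rw [e] at this
    have : a = 1 := Subtype.ext this
    rw [this, orderOf_one] at ha
    exact hp.one_lt.ne ha
  have hP : IsPGroup p A := fun x => ⟨1, by
    have : x.1 ∈ B := hBA.symm ▸ x.2
    rw [pow_one]; exact this.2⟩
  obtain ⟨n, hn⟩ := IsPGroup.iff_card.1 hP
  cases n with
  | zero => exact absurd hn h1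
  | succ k => exact ⟨p, k, hp, hn⟩

/-- Elements of the kernel acting on `A` as translations. -/
def Ct (h : Nrm A) (ab : Ab A) : Subgroup (G Q) where
  carrier := {g | g ∈ h.pi.ker ∧ ∃ a ∈ A, ∀ b ∈ A, g • b = b * a}
  one_mem' := ⟨one_mem _, 1, h.one, by simp⟩
  mul_mem' := fun ⟨k, a, ha, e⟩ ⟨k', a', ha', e'⟩ => ⟨mul_mem k k', a' * a, h.mul ha' ha,
    fun b hb => by rw [mul_smul, e' b hb, e _ (h.mul hb ha'), (ab _ hb _ ha').2 _ ha]⟩
  inv_mem' := fun ⟨k, a, ha, e⟩ => ⟨inv_mem k, iv a, h.iv ha, fun b hb => by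
    rw [inv_smul_eq_iff, e _ (h.mul hb (h.iv ha)), (ab _ hb _ (h.iv ha)).2 _ ha, iv_mul, mo]⟩

theorem Nrm.rel_l (h : Nrm A) {a : Q} (ha : a ∈ A) (x : Q) : Rel A x (a * x) := by
  simpa using h.smul (r x) (rel_one.2 ha)

theorem ct_l (h : Nrm A) (ab : Ab A) {a : Q} (ha : a ∈ A) : l a ∈ Ct h ab :=
  ⟨h.mem_ker.2 (h.rel_l ha), a, ha, fun _ hb => (ab _ ha _ hb).1⟩

theorem ct_r (h : Nrm A) (ab : Ab A) {a : Q} (ha : a ∈ A) : r a ∈ Ct h ab :=
  ⟨h.mem_ker.2 fun _ => ⟨a, ha, rfl⟩, a, ha, fun _ _ => rfl⟩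

theorem ct_fix {h : Nrm A} {ab : Ab A} {c : G Q} (hc : c ∈ Ct h ab) (c1 : c • (1 : Q) = 1)
    {b : Q} (hb : b ∈ A) : c • b = b := by
  obtain ⟨-, a, -, e⟩ := hc
  have := e 1 h.one
  rw [c1, om] at this
  rw [e b hb, ← this, mo]

theorem Nrm.ker_one (h : Nrm A) {k : G Q} (hk : k ∈ h.pi.ker) : k • (1 : Q) ∈ A :=
  rel_one.1 (h.mem_ker.1 hk 1)

theorem ct_p (h : Nrm A) (ab : Ab A) {p k : ℕ} [hp : Fact p.Prime] (hc : A.ncard = p ^ k) :
    IsPGroup p (Ct h ab) := pgroup_of _ fun g hg q hq hne e => by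
  have := Fact.mk hq
  have hz : IsPGroup q (zpowers g) := zp_pgroup (j := 1) (by rwa [pow_one])
  have hf : ∀ y, ∃ z, Rel A y z ∧ g • z = z := fun y => by
    obtain ⟨z, h1, h2⟩ := fix1 hz {z | Rel A y z} (fun s hs z hz => h.trans hz
      (h.mem_ker.1 ((zpowers_le.2 hg hs).1) z)) (by
        rw [ncard_cls, hc]
        exact fun d => hne ((Nat.prime_dvd_prime_iff_eq hq hp.out).1 (hq.dvd_of_dvd_pow d)))
    exact ⟨z, h1, h2 g (mem_zpowers g)⟩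
  have g1 : g • (1 : Q) = 1 := by
    obtain ⟨z, h1, h2⟩ := hf 1
    obtain ⟨-, a, -, e⟩ := hg
    rw [e 1 h.one, om]
    apply lc (x := z)
    rw [← e z (rel_one.1 h1), h2, mo]
  refine gext fun y => ?_
  obtain ⟨z, h1, h2⟩ := hf y
  obtain ⟨a, ha, rfl⟩ := h.symm h1
  rw [inn g1, h2, ct_fix hg g1 ha, one_smul]

theorem ct_conj (h : Nrm A) (ab : Ab A) {g c : G Q} (hg : g • (1 : Q) ∈ A) (hc : c ∈ Ct h ab) :
    g * c * g⁻¹ ∈ Ct h ab := by
  set f := (r (g • (1 : Q)))⁻¹ * g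
  have f1 : f • (1 : Q) = 1 := by simp [f, mul_smul, inv_smul_eq_iff]
  have h1 : f * c * f⁻¹ ∈ Ct h ab := by
    obtain ⟨k, a, ha, e⟩ := hc
    refine ⟨h.pi.normal_ker.conj_mem _ k _, f • a, h.inn f f1 ha, fun b hb => ?_⟩
    rw [mul_smul, mul_smul, e _ (h.inn f⁻¹ (inv_smul_eq_iff.2 f1.symm) hb), inn f1, smul_inv_smul]
  have := mul_mem (mul_mem (ct_r h ab hg) h1) (inv_mem (ct_r h ab hg))
  simpa [f, mul_assoc] using this

/-- A normal `p`-subgroup of the inner mapping group fixes a minimal normal `p`-subloop. -/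
theorem MinN.fixA (h : MinN A) {p : ℕ} [Fact p.Prime] (hd : p ∣ A.ncard) {U : Subgroup (G Q)}
    (hU : IsPGroup p U) (hn : ∀ f : G Q, f • (1 : Q) = 1 → ∀ u ∈ U, f * u * f⁻¹ ∈ U)
    {u : G Q} (hu : u ∈ U) (u1 : u • (1 : Q) = 1) {b : Q} (hb : b ∈ A) : u • b = b := by
  set S := U ⊓ MulAction.stabilizer (G Q) (1 : Q)
  obtain ⟨y, hy, hne, hf⟩ := fix2 (S := S) hU.to_inf_left A (fun g hg y hy => h.inn g hg.2 hy) hd
    h.one fun g hg => hg.2
  set B : Set Q := {a | a ∈ A ∧ ∀ g ∈ S, g • a = a}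
  have hB : Nrm B := ⟨⟨⟨h.one, fun g hg => hg.2⟩, fun a b => ⟨h.mul a.1 b.1, fun g hg => by
    rw [inn hg.2, a.2 g hg, b.2 g hg]⟩⟩, fun f a f1 ha => ⟨h.inn f f1 ha.1, fun g hg => by
      have f2 : f⁻¹ • (1 : Q) = 1 := inv_smul_eq_iff.2 f1.symm
      have := ha.2 (f⁻¹ * g * f⁻¹⁻¹) ⟨hn _ f2 _ hg.1, by
        change _ • _ = _
        rw [inv_inv, mul_smul, mul_smul, f1, hg.2, f2]⟩
      rwa [inv_inv, mul_smul, mul_smul, inv_smul_eq_iff] at this⟩⟩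
  have := h.min B hB (fun _ a => a.1) fun e => hne (by
    have : y ∈ B := ⟨hy, hf⟩
    rwa [e] at this)
  rw [← this] at hb
  exact hb.2 u ⟨hu, u1⟩

theorem ct_of {h : MinN A} {ab : Ab A} {p k : ℕ} [Fact p.Prime] (hc : A.ncard = p ^ (k + 1))
    {U : Subgroup (G Q)} [hn : U.Normal] (hU : IsPGroup p U) (h1 : ∀ a ∈ A, r a ∈ U)
    {u : G Q} (hu : u ∈ U) (hk : u ∈ h.pi.ker) : u ∈ Ct h.toNrm ab := by
  have ha := h.ker_one hk
  refine ⟨hk, _, ha, fun b hb => ?_⟩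
  have := h.fixA (p := p) (by rw [hc]; exact dvd_pow_self _ k.succ_ne_zero) hU
    (fun f _ u hu => hn.conj_mem u hu f) (mul_mem (inv_mem (h1 _ ha)) hu)
    (by simp [mul_smul, inv_smul_eq_iff]) hb
  rwa [mul_smul, inv_smul_eq_iff] at this

theorem ct_normal (h : MinN A) (ab : Ab A) : (Ct h.toNrm ab).Normal := by
  obtain ⟨p, k, hp, hc⟩ := h.prime ab
  have := Fact.mk hp
  have hle : Ct h.toNrm ab ≤ h.pi.ker := fun _ c => c.1
  have hU := ncl_pgroup hle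
    (fun k hk c hc => ct_conj h.toNrm ab (h.ker_one hk) hc) (ct_p h.toNrm ab hc)
  have : normalClosure (Ct h.toNrm ab : Set (G Q)) = Ct h.toNrm ab :=
    le_antisymm (fun u hu => ct_of (h := h) hc hU (fun a ha => le_normalClosure (ct_r _ ab ha)) hu
      (normalClosure_le_normal hle hu)) le_normalClosure
  rw [← this]; infer_instance

theorem ct_tr (h : MinN A) {ab : Ab A} {c : G Q} (hc : c ∈ Ct h.toNrm ab) (y : Q) :
    ∃ a ∈ A, ∀ b ∈ A, c • (y * b) = y * (b * a) := by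
  obtain ⟨-, a, ha, e⟩ := (ct_normal h ab).conj_mem _ hc (l y)⁻¹
  refine ⟨a, ha, fun b hb => ?_⟩
  have := e b hb
  rwa [inv_inv, mul_smul, mul_smul, inv_smul_eq_iff] at this

theorem ct_comm (h : MinN A) {ab : Ab A} {c d : G Q} (hc : c ∈ Ct h.toNrm ab)
    (hd : d ∈ Ct h.toNrm ab) : c * d = d * c := gext fun y => by
  obtain ⟨a, ha, e⟩ := ct_tr h hc y
  obtain ⟨b, hb, e'⟩ := ct_tr h hd y
  have e1 := e 1 h.one
  have e2 := e' 1 h.one
  rw [mo, om] at e1 e2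
  rw [mul_smul, mul_smul, e1, e2, e b hb, e' a ha, (ab _ ha _ hb).1]

theorem ass_r (h : MinN A) (ab : Ab A) {a b : Q} (ha : a ∈ A) (hb : b ∈ A) (y : Q) :
    (y * a) * b = y * (a * b) := by
  obtain ⟨c, -, e⟩ := ct_tr h (ct_r _ ab hb) y
  have e1 := e 1 h.one
  rw [mo, om, r_smul] at e1
  rw [← lc e1] at e; exact e a ha

theorem ass_l (h : MinN A) (ab : Ab A) {a b : Q} (ha : a ∈ A) (hb : b ∈ A) (y : Q) :
    a * (b * y) = (a * b) * y := by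
  have := ass_r h ab (h.iv hb) (h.iv ha) (iv y)
  rw [← aaip, ← aaip, ← aaip, ← aaip] at this
  simpa using congrArg iv this

theorem ct_cen (h : MinN A) (ab : Ab A) {k : G Q} (hk : k ∈ h.pi.ker) (g : G Q) :
    k * g * k⁻¹ * g⁻¹ ∈ Ct h.toNrm ab := by
  have := ct_normal h ab
  set π := QuotientGroup.mk' (Ct h.toNrm ab)
  have hm : ∀ x, π x = 1 ↔ x ∈ Ct h.toNrm ab := fun x => QuotientGroup.eq_one_iff x
  set f := (r (k • (1 : Q)))⁻¹ * k
  have f1 : f • (1 : Q) = 1 := by simp [f, mul_smul, inv_smul_eq_iff]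
  have hr := ct_r h.toNrm ab (h.ker_one hk)
  have fk : f ∈ h.pi.ker := mul_mem (inv_mem hr.1) hk
  have e : π k = π f := by simp [f, (hm _).2 hr]
  have : Commute (π f) (π g) := by
    induction g using G_ind with
    | hl x =>
      obtain ⟨d, hd, e⟩ := h.mem_ker.1 fk x
      have h1 : (l x)⁻¹ * l (x * d) ∈ Ct h.toNrm ab := ⟨by
        rw [MonoidHom.mem_ker, map_mul, map_inv, h.pi_l, h.pi_l, inv_mul_eq_one,
          h.mk_eq.2 ⟨d, hd, rfl⟩], d, hd, fun b hb => by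
        rw [mul_smul, inv_smul_eq_iff, l_smul, l_smul, ass_r h ab hd hb, (ab _ hd _ hb).1]⟩
      rw [← hm, map_mul, map_inv, inv_mul_eq_one] at h1
      rw [Commute, SemiconjBy, ← map_mul, (inn f1).conjl, e, map_mul, h1]
    | hr x =>
      obtain ⟨d, e⟩ := exr x (f • x)
      have hd : d ∈ A := by
        have := h.smul (r x)⁻¹ (h.mem_ker.1 fk x)
        rw [← e, ← r_smul x d, inv_smul_smul] at this
        have e1 : (r x)⁻¹ • x = 1 := by simp [inv_smul_eq_iff]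
        rwa [e1, rel_one] at this
      have h1 : (r x)⁻¹ * r (d * x) ∈ Ct h.toNrm ab := ⟨by
        rw [MonoidHom.mem_ker, map_mul, map_inv, h.pi_r, h.pi_r, inv_mul_eq_one,
          h.mk_eq.2 (h.rel_l hd x)], d, hd, fun b hb => by
        rw [mul_smul, inv_smul_eq_iff, r_smul, r_smul, ass_l h ab hb hd]⟩
      rw [← hm, map_mul, map_inv, inv_mul_eq_one] at h1
      rw [Commute, SemiconjBy, ← map_mul, (inn f1).conjr, ← e, map_mul, h1]
    | h1 => simp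
    | hm g g' a b => rw [map_mul]; exact a.mul_right b
    | hi g a => rw [map_inv]; exact a.inv_right
  rw [← hm]
  simp only [map_mul, map_inv, e, this.eq, mul_inv_cancel_right, mul_inv_cancel]

end Pool.Agent.AL
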