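import Pool.Agent.H.MP_428e1d_al.C

set_option autoImplicit false
set_option linter.unusedSectionVars false

namespace Pool.Agent.AL

open Equiv Subgroup

theorem comm_pow {Γ : Type} [Group Γ] {x y : Γ} (h : Commute (x * y * x⁻¹ * y⁻¹) x) {n m : ℕ}
    (hn : Commute (x ^ n) y) (hm : (x * y * x⁻¹ * y⁻¹) ^ m = 1) (c : n.Coprime m) :
    x * y = y * x := by
  set g := x * y * x⁻¹ * y⁻¹
  have e : x * y = g * y * x := by simp [g]
  have : ∀ k : ℕ, x ^ k * y = g ^ k * y * x ^ k := fun k => by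
    induction k with
    | zero => simp
    | succ k ih =>
      rw [pow_succ', mul_assoc, ih, ← mul_assoc, ← mul_assoc, ← (h.pow_left k).eq, mul_assoc _ x,
        e, pow_succ g]
      simp only [mul_assoc]
  have h1 : g ^ n = 1 := by
    have := this n
    rw [hn.eq] at this
    simpa using this.symm
  have h2 : g = 1 := by
    have := pow_gcd_eq_one.2 ⟨h1, hm⟩
    rwa [c, pow_one] at this
  rw [e, h2, one_mul]

variable {Q : Type} [ALoop Q] [Finite Q] {A : Set Q}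

theorem compl_a (h : MinN A) (ab : Ab A) {k : G Q} (hk : k ∈ h.pi.ker)
    (hn : k ∉ Ct h.toNrm ab) : ∃ T : Set Q, Sub T ∧ T.ncard = Nat.card h.Qt := by
  set f := (r (k • (1 : Q)))⁻¹ * k
  have f1 : f • (1 : Q) = 1 := by simp [f, mul_smul, inv_smul_eq_iff]
  have hr := ct_r h.toNrm ab (h.ker_one hk)
  have fk : f ∈ h.pi.ker := mul_mem (inv_mem hr.1) hk
  set B : Set Q := {a | a ∈ A ∧ f • a = a}
  have hB : Nrm B := ⟨⟨⟨h.one, f1⟩, fun a b => ⟨h.mul a.1 b.1, by rw [inn f1, a.2, b.2]⟩⟩,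
    fun g a g1 ha => ⟨h.inn g g1 ha.1, by
      have := ct_fix (ct_cen h ab fk g) (by
        rw [mul_smul, mul_smul, mul_smul, inv_smul_eq_iff.2 g1.symm, inv_smul_eq_iff.2 f1.symm,
          g1, f1]) (h.inn g g1 ha.1)
      rwa [mul_smul, mul_smul, mul_smul, inv_smul_smul, inv_smul_eq_iff.2 ha.2.symm] at this⟩⟩
  have hB1 : B = {1} := by
    by_contra hc
    apply hn
    have : f ∈ Ct h.toNrm ab := ⟨fk, 1, h.one, fun b hb => by
      rw [← h.min B hB (fun _ a => a.1) hc] at hb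
      rw [hb.2, mo]⟩
    simpa [f] using mul_mem hr this
  refine ⟨{y | f • y = y}, ⟨f1, fun {a b} (ha : f • a = a) (hb : f • b = b) => by
    change f • _ = _; rw [inn f1, ha, hb]⟩, h.ncard_sec (fun y => ?_) ?_⟩
  · let _ := ab.grp h.toSub
    let φ : A →* A := MonoidHom.mk' (fun a => ⟨f • a.1, h.inn f f1 a.2⟩)
      fun a b => Subtype.ext (inn f1 _ _)
    have hi : Function.Injective (fun a : A => a * (φ a)⁻¹) := fun a b e => by
      have e2 : φ (a * b⁻¹) = a * b⁻¹ := by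
        dsimp only at e
        rw [map_mul, map_inv, mul_inv_eq_mul_inv_iff_mul_eq_mul, mul_comm,
          ← mul_inv_eq_mul_inv_iff_mul_eq_mul.1 e.symm]
      have : (a * b⁻¹).1 ∈ B := ⟨(a * b⁻¹).2, congrArg Subtype.val e2⟩
      rw [hB1] at this
      exact mul_inv_eq_one.1 (Subtype.ext this)
    obtain ⟨d, hd, e⟩ := h.mem_ker.1 fk y
    obtain ⟨a, ha⟩ := Finite.surjective_of_injective hi ⟨d, hd⟩
    refine ⟨y * a, ?_, a, a.2, rfl⟩
    change f • _ = _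
    rw [inn f1, e, ass_r h ab hd (h.inn f f1 a.2)]
    exact congrArg (fun z : A => y * z.1) (mul_inv_eq_iff_eq_mul.1 ha).symm
  · rintro t (ht : f • t = t) _ (ht' : f • _ = _) ⟨a, ha, rfl⟩
    rw [inn f1, ht] at ht'
    have : a ∈ B := ⟨ha, lc ht'⟩
    rw [hB1] at this
    rw [this, mo]

/-- The data of the second case. -/
structure Dat (h : MinN A) (ab : Ab A) (q : ℕ) (B : Set Q) (U : Subgroup (G Q)) : Prop where
  hq : q.Prime
  nd : ¬ q ∣ A.ncard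
  hB : Nrm B
  ex : ∃ t ∈ B, t ∉ A
  cls : ∀ {x y}, x ∈ B → Rel A x y → y ∈ B
  nU : U.Normal
  ul : ∀ t ∈ B, l t ∈ U
  ur : ∀ t ∈ B, r t ∈ U
  u2 : ∀ u ∈ U, u • (1 : Q) ∈ A → ∀ y ∈ B, Rel A y (u • y)
  u2' : ∀ u ∈ U, ∀ y ∈ B, Rel A y (u • y) → u • (1 : Q) ∈ A
  u3 : ∀ u ∈ U, ∃ j, u ^ q ^ j ∈ Ct h.toNrm ab
  u4 : ∀ t ∈ B, ∀ g ∈ B, ∀ a ∈ A, t * (g * a) = (t * g) * a
  u5 : ∀ u ∈ U, u • (1 : Q) ∈ B

theorem exists_dat (h : MinN A) (ab : Ab A) (s : Solv Q) (hk : h.pi.ker ≤ Ct h.toNrm ab)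
    (hc : A.ncard.Coprime (Nat.card h.Qt)) (hne : (Set.univ : Set h.Qt) ≠ {1}) :
    ∃ q B U, Dat h ab q B U ∧ q ∣ Nat.card h.Qt := by
  obtain ⟨D, -, hD⟩ := exists_min nrm_univ hne
  have ab' := (s.qt h.toNrm).ab hD
  obtain ⟨q, j, hq, hj⟩ := hD.prime ab'
  have := Fact.mk hq
  have hd : q ∣ Nat.card h.Qt := by
    rw [hD.card, hj]; exact Dvd.dvd.mul_left (dvd_pow_self _ j.succ_ne_zero) _
  have := ct_normal hD ab'
  have o : ∀ x, h.cl x = 1 ↔ x ∈ A := fun x => by rw [← h.mk_one, eq_comm, h.mk_eq, rel_one]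
  refine ⟨q, h.cl ⁻¹' D, (Ct hD.toNrm ab').comap h.pi, ⟨hq, fun d => ?_, h.pre_nrm hD.toNrm, ?_,
    fun hx e => ?_, inferInstance, fun t ht => ?_, fun t ht => ?_, fun u hu u1 y hy => ?_,
    fun u hu y hy e => ?_, fun u hu => ?_, fun t ht g hg a ha => ?_, fun u hu => ?_⟩, hd⟩
  · exact hq.one_lt.ne' (Nat.eq_one_of_dvd_coprimes hc d hd)
  · by_contra hc
    push Not at hc
    refine hD.ne (Set.Subset.antisymm (fun x hx => ?_) (by simpa using hD.one))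
    obtain ⟨x, rfl⟩ := h.mk_surj x
    exact (o x).2 (hc x hx)
  · rwa [Set.mem_preimage, ← h.mk_eq.2 e]
  · rw [mem_comap, h.pi_l]; exact ct_l _ ab' ht
  · rw [mem_comap, h.pi_r]; exact ct_r _ ab' ht
  · rw [← h.mk_eq, ← h.pi_smul, ct_fix (ab := ab') hu (by rw [← h.mk_one, h.pi_smul, (o _).2 u1]; rfl) hy]
  · obtain ⟨-, a, -, e'⟩ := hu
    rw [← h.mk_eq, ← h.pi_smul, e' _ hy] at e
    rw [← o, ← h.pi_smul, h.mk_one, e' _ hD.one, om]
    exact lc (e.symm.trans (mo _).symm)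
  · obtain ⟨i, hi⟩ := ct_p hD.toNrm ab' hj ⟨_, hu⟩
    exact ⟨i, hk (by rw [MonoidHom.mem_ker, map_pow]; exact congrArg Subtype.val hi)⟩
  · have : (l (t * g))⁻¹ * (l t * l g) ∈ h.pi.ker := by
      rw [MonoidHom.mem_ker, map_mul, map_inv, inv_mul_eq_one, map_mul, h.pi_l, h.pi_l, h.pi_l]
      exact gext fun y => by
        rw [mul_smul, l_smul, l_smul, l_smul, ass_l hD ab' ht hg, h.mk_mul]
    have := ct_fix (hk this) (by simp [mul_smul, inv_smul_eq_iff]) ha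
    rwa [mul_smul, inv_smul_eq_iff, mul_smul] at this
  · rw [Set.mem_preimage, ← h.pi_smul]; exact hD.ker_one hu.1

variable {h : MinN A} {ab : Ab A} {q : ℕ} {B : Set Q} {U : Subgroup (G Q)}

theorem Dat.sub (d : Dat h ab q B U) {a : Q} (ha : a ∈ A) : a ∈ B := d.cls d.hB.one (rel_one.2 ha)

theorem Dat.comm (d : Dat h ab q B U) {x c : G Q} (hx : x ∈ U) (hc : c ∈ Ct h.toNrm ab)
    (e : Commute (x * c * x⁻¹ * c⁻¹) x) : x * c = c * x := by
  obtain ⟨p, k, hp, hk⟩ := h.prime ab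
  have := Fact.mk hp
  obtain ⟨j, hj⟩ := d.u3 x hx
  obtain ⟨i, hi⟩ := ct_p h.toNrm ab hk
    ⟨_, mul_mem ((ct_normal h ab).conj_mem _ hc x) (inv_mem hc)⟩
  refine comm_pow e (ct_comm h hj hc) (congrArg Subtype.val hi) (Nat.Coprime.pow _ _ ?_)
  rw [Nat.coprime_primes d.hq hp]
  rintro rfl
  exact d.nd (hk ▸ dvd_pow_self _ k.succ_ne_zero)

theorem Dat.cl (d : Dat h ab q B U) {c : G Q} (hc : ∀ y ∈ B, c • y = y) {t : Q} (ht : t ∈ B) :
    c * l t = l t * c := by rw [(inn (hc _ d.hB.one)).conjl, hc t ht]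

theorem Dat.cr (d : Dat h ab q B U) {c : G Q} (hc : ∀ y ∈ B, c • y = y) {t : Q} (ht : t ∈ B) :
    c * r t = r t * c := by rw [(inn (hc _ d.hB.one)).conjr, hc t ht]

theorem Dat.f1 (d : Dat h ab q B U) {t a : Q} (ht : t ∈ B) (ha : a ∈ A) :
    l t * r a = r a * l t := by
  refine d.comm (d.ul t ht) (ct_r _ ab ha) (d.cl (fun y hy => ?_) ht)
  obtain ⟨z, rfl⟩ := exr a y
  obtain ⟨g, rfl⟩ := exl t z
  have hg := d.hB.ldiv ht (d.hB.rdiv (d.sub ha) hy)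
  rw [mul_smul, mul_smul, mul_smul, ← r_smul a, inv_smul_smul, ← l_smul t g, inv_smul_smul]
  exact d.u4 t ht g hg a ha

theorem Dat.f2 (d : Dat h ab q B U) {t a a' : Q} (ht : t ∈ B) (ha : a ∈ A) (e : a' * t = t * a) :
    r a * r t = r t * r a' := by
  have h1 := (autTT t).conjr a
  have : ((r t)⁻¹ * l t) • a = a' := by rw [mul_smul, inv_smul_eq_iff]; exact e.symm
  rw [this, mul_assoc, d.f1 ht ha, ← mul_assoc, ← mul_assoc, mul_left_inj] at h1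
  rw [← mul_left_inj (r t)⁻¹, mul_assoc (r t), ← h1]
  simp

theorem Dat.nrm0 (d : Dat h ab q B U) : Nrm {a | a ∈ A ∧ ∀ t ∈ B, t * a = a * t} := by
  refine ⟨⟨⟨h.one, by simp⟩, fun {a b} ha hb => ⟨h.mul ha.1 hb.1, fun t ht => ?_⟩⟩,
    fun f a f1 ha => ⟨h.inn f f1 ha.1, fun t ht => ?_⟩⟩
  · rw [← ass_r h ab ha.1 hb.1, ha.2 t ht, ← d.u4 a (d.sub ha.1) t ht b hb.1, hb.2 t ht,
      ass_l h ab ha.1 hb.1]
  · have := congrArg (f • ·) (ha.2 _ (d.hB.inn f⁻¹ (inv_smul_eq_iff.2 f1.symm) ht))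
    simpa [inn f1 _ _] using this

theorem Dat.w0 (d : Dat h ab q B U) (h0 : ∀ a ∈ A, (∀ t ∈ B, t * a = a * t) → a = 1) {c : G Q}
    (hc : c ∈ Ct h.toNrm ab) (hf : ∀ y ∈ B, c • y = y) : c = 1 := gext fun y => by
  obtain ⟨a, ha, e⟩ := h.mem_ker.1 hc.1 y
  rw [e, h0 a ha fun t' ht' => ?_, mo, one_smul]
  obtain ⟨t, et⟩ := exr y (y * t')
  have ht : t ∈ B := by
    have : ((r y)⁻¹ * l y) • t' = t := by rw [mul_smul, inv_smul_eq_iff]; exact et.symm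
    exact this ▸ d.hB.inn _ (autTT y).fix ht'
  obtain ⟨a', ea⟩ := exr t' (t' * a)
  have e1 := congrArg (· • y) (d.cl hf ht)
  have e2 := congrArg (· • y) (d.cr hf ht')
  have e3 := congrArg (· • y) (d.f1 ht ha)
  have e4 := congrArg (· • y) (d.f2 ht' ha ea)
  simp only [mul_smul, l_smul, r_smul, e, et] at e1 e2 e3 e4
  rw [← ea, lc (rc (e2.symm.trans (e1.trans (e3.trans e4))))]

theorem Dat.compl (d : Dat h ab q B U) (h0 : ∀ a ∈ A, (∀ t ∈ B, t * a = a * t) → a = 1) :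
    ∃ T : Set Q, Sub T ∧ T.ncard = Nat.card h.Qt := by
  have := Fact.mk d.hq
  have := d.nU
  have hN := ct_normal h ab
  obtain ⟨P, hP⟩ : ∃ P : Sylow q U, ∀ s ∈ (P : Subgroup U).map U.subtype, s • (1 : Q) ∈ A →
      s • (1 : Q) = 1 := by
    obtain ⟨P⟩ : Nonempty (Sylow q U) := inferInstance
    have o : ∀ g : G Q, g ∈ (MulAction.stabilizer (G h.Qt) (1 : h.Qt)).comap h.pi ↔
        Rel A 1 (g • (1 : Q)) := fun g => by
      rw [mem_comap, MulAction.mem_stabilizer_iff, ← h.mk_one, h.pi_smul, eq_comm, h.mk_eq]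
    obtain ⟨a, ha, hf⟩ := fix1 (S := (P : Subgroup U).map U.subtype ⊓
      (MulAction.stabilizer (G h.Qt) (1 : h.Qt)).comap h.pi)
      (P.isPGroup'.map U.subtype).to_inf_left A (fun g hg y hy =>
        rel_one.1 (h.trans ((o g).1 hg.2) (h.smul g (rel_one.2 hy)))) d.nd
    refine ⟨(⟨r a, d.ur a (d.sub ha)⟩ : U)⁻¹ • P, ?_⟩
    rintro _ ⟨s, hs, rfl⟩ s1
    have hs' : (⟨r a, d.ur a (d.sub ha)⟩ : U) * s * (⟨r a, d.ur a (d.sub ha)⟩ : U)⁻¹ ∈
        (P : Subgroup U) := by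
      rw [Sylow.coe_subgroup_smul, SetLike.mem_coe, mem_pointwise_smul_iff_inv_smul_mem] at hs
      simpa using hs
    have e : (r a * s * (r a)⁻¹) • a = (s : G Q) • (1 : Q) * a := by
      rw [mul_smul, mul_smul, (inv_smul_eq_iff (g := r a) (b := (1 : Q))).2 (om a).symm, r_smul]
    have := hf (r a * s * (r a)⁻¹) ⟨⟨_, hs', rfl⟩, (o _).2 (h.trans (rel_one.2 (h.mul s1 ha))
      (e ▸ h.smul _ (h.symm (rel_one.2 ha))))⟩
    rw [e] at this
    exact rc (this.trans (om a).symm)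
  set S := (P : Subgroup U).map U.subtype
  have SU : S ≤ U := map_subtype_le _
  have dec := sylow_dec d.u3 P
  have fr : ∀ g : G Q, ∃ n ∈ normalizer (S : Set (G Q)), ∃ c ∈ Ct h.toNrm ab, g = n * c := by
    intro g
    have : g ∈ ((normalizer (S : Set (G Q)) ⊔ U : Subgroup (G Q)) : Set (G Q)) := by
      rw [P.normalizer_sup_eq_top]; trivial
    rw [mul_normal] at this
    obtain ⟨n, hn, u, hu, rfl⟩ := this
    obtain ⟨c, hc, s, hs, rfl⟩ := dec u hu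
    exact ⟨n * s, mul_mem hn (le_normalizer hs), s⁻¹ * c * s⁻¹⁻¹, hN.conj_mem _ hc _, by
      simp [mul_assoc]⟩
  set T : Set Q := {y | ∀ s ∈ S, Rel A y (s • y) → s • y = y}
  have T1 : (1 : Q) ∈ T := fun s hs e => hP s hs (rel_one.1 e)
  have TN : ∀ n ∈ normalizer (S : Set (G Q)), ∀ y ∈ T, n • y ∈ T := fun n hn y hy s hs e => by
    have := hy (n⁻¹ * s * n) ((mem_normalizer_iff''.1 hn s).1 hs) (by
      simpa [mul_smul] using h.smul n⁻¹ e)
    rwa [mul_smul, mul_smul, inv_smul_eq_iff] at this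
  have TA : ∀ a ∈ A, a ∈ T → a = 1 := fun a ha hT => h0 a ha fun t ht => by
    obtain ⟨c, hc, s, hs, e⟩ := dec _ (mul_mem (inv_mem (d.ur t ht)) (d.ul t ht))
    have e1 := (autTT t).fix
    rw [e, mul_smul, ← eq_inv_smul_iff] at e1
    have s1 := hP s hs (e1 ▸ h.ker_one (inv_mem hc.1))
    rw [s1, eq_inv_smul_iff] at e1
    have e2 := congrArg (· • a) e
    simp only [mul_smul, hT s hs (d.u2 s (SU hs) (s1.symm ▸ h.one) a (d.sub ha)),
      ct_fix hc e1 ha, inv_smul_eq_iff] at e2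
    exact e2
  have Tex : ∀ y, ∃ t ∈ T, Rel A y t := fun y => by
    obtain ⟨n, hn, c, hc, e⟩ := fr (l y)
    refine ⟨n • (1 : Q), TN n hn _ T1, h.symm ?_⟩
    have := h.smul n (h.mem_ker.1 hc.1 1)
    rwa [← mul_smul, ← e, l_smul, mo] at this
  have Tun : ∀ t ∈ T, ∀ t' ∈ T, Rel A t t' → t = t' := fun t ht t' ht' e => by
    obtain ⟨n, hn, c, hc, e'⟩ := fr (l t)
    have e1 : Rel A 1 (n⁻¹ • t) := by
      rw [← mo t, ← l_smul, e', mul_smul, inv_smul_smul]; exact h.mem_ker.1 hc.1 1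
    have e2 := TA _ (rel_one.1 e1) (TN _ (inv_mem hn) _ ht)
    have e3 := TA _ (rel_one.1 (h.trans e1 (h.smul n⁻¹ e))) (TN _ (inv_mem hn) _ ht')
    exact smul_left_cancel _ (e2.trans e3.symm)
  have key : ∀ g : G Q, (∀ t ∈ T, t ∈ B → g • t ∈ T) → ∀ y ∈ T, g • y ∈ T := fun g hg y hy => by
    obtain ⟨n, hn, c, hc, rfl⟩ := fr g
    have e1 : ∀ t ∈ T, t ∈ B → c • t = t := fun t ht hB => by
      have := TN _ (inv_mem hn) _ (hg t ht hB)
      rw [mul_smul, inv_smul_smul] at this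
      exact (Tun _ ht _ this (h.mem_ker.1 hc.1 t)).symm
    have c1 := e1 1 T1 d.hB.one
    rw [d.w0 h0 hc fun z hz => ?_, mul_one]
    · exact TN n hn y hy
    obtain ⟨t, ht, e⟩ := Tex z
    have hB := d.cls hz e
    obtain ⟨a, ha, rfl⟩ := h.symm e
    rw [inn c1, e1 t ht hB, ct_fix hc c1 ha]
  have s1 : ∀ t ∈ T, t ∈ B → ∀ t' ∈ T, t' ∈ B → t' * t ∈ T := fun t ht hB t' ht' hB' s hs e => by
    have a := d.u2' s (SU hs) _ (d.hB.mul hB' hB) e
    rw [inn (hP s hs a), ht s hs (d.u2 s (SU hs) a _ hB), ht' s hs (d.u2 s (SU hs) a _ hB')]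
  exact ⟨T, ⟨T1, fun {a b} ha hb => key (l a) (fun t ht hB => key (r t) (s1 t ht hB) a ha) b hb⟩,
    h.ncard_sec Tex Tun⟩

end Pool.Agent.AL
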