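import Pool.Agent.H.MP_428e1d_al.D

set_option autoImplicit false
set_option linter.unusedSectionVars false

namespace Pool.Agent.AL

open Equiv Subgroup

variable {Q : Type} [ALoop Q] [Finite Q] {A : Set Q}
variable {h : MinN A} {ab : Ab A} {q : ℕ} {B : Set Q} {U : Subgroup (G Q)}

theorem Dat.cen (d : Dat h ab q B U) (h0 : ∀ a ∈ A, ∀ t ∈ B, t * a = a * t) {c : G Q}
    (hc : c ∈ Ct h.toNrm ab) {t : Q} (ht : t ∈ B) : Commute c (l t) ∧ Commute c (r t) := by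
  have hN := ct_normal h ab
  have ha := h.ker_one hc.1
  set f := (r (c • (1 : Q)))⁻¹ * c
  have f1 : f • (1 : Q) = 1 := by simp [f, mul_smul, inv_smul_eq_iff]
  have fc : f ∈ Ct h.toNrm ab := mul_mem (inv_mem (ct_r _ ab ha)) hc
  have hf : ∀ g ∈ B, f • g = g := fun g hg => by
    obtain ⟨a, ha, e⟩ := h.mem_ker.1 fc.1 g
    have e1 : Commute (l (g * a) * (l g)⁻¹ * (r a)⁻¹) (l g) := d.cl (fun y hy => by
      obtain ⟨z, rfl⟩ := exr a y
      obtain ⟨w, rfl⟩ := exl g z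
      have hw := d.hB.ldiv hg (d.hB.rdiv (d.sub ha) hy)
      rw [mul_smul, mul_smul, ← r_smul a (g * w), inv_smul_smul, ← l_smul g w, inv_smul_smul]
      simpa [mul_smul] using congrArg (· • g) (d.f2 hw ha (h0 a ha w hw).symm).symm) hg
    have e2 : Commute (l (g * a) * (l g)⁻¹) (l g) := by
      simpa using e1.mul_left (d.f1 hg ha).symm
    have e3 := (inn f1).conjl g
    rw [e] at e3
    have e4 := d.comm (d.ul g hg) fc (by
      have : l g * f * (l g)⁻¹ * f⁻¹ = (l (g * a) * (l g)⁻¹)⁻¹ := by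
        rw [← mul_inv_eq_iff_eq_mul] at e3
        rw [← e3]; simp [mul_assoc]
      rw [this]; exact e2.inv_left)
    rw [← e4, mul_left_inj] at e3
    rw [e]
    simpa using (congrArg (· • (1 : Q)) e3).symm
  have e : c = r (c • (1 : Q)) * f := by simp [f]
  rw [e]
  exact ⟨Commute.mul_left (d.f1 ht ha).symm (d.cl hf ht),
    Commute.mul_left (d.f2 ht ha (h0 _ ha t ht).symm) (d.cr hf ht)⟩

theorem Dat.normal (d : Dat h ab q B U) (h0 : ∀ a ∈ A, ∀ t ∈ B, t * a = a * t) :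
    ∃ N : Set Q, Nrm N ∧ N ≠ {1} ∧ ∃ j, N.ncard = q ^ j := by
  have := Fact.mk d.hq
  have hN := ct_normal h ab
  set M := closure (l '' B ∪ r '' B)
  have MU : M ≤ U := (closure_le _).2 (by
    rintro _ (⟨t, ht, rfl⟩ | ⟨t, ht, rfl⟩)
    exacts [d.ul t ht, d.ur t ht])
  have lM : ∀ t ∈ B, l t ∈ M := fun t ht => subset_closure (Or.inl ⟨t, ht, rfl⟩)
  have rM : ∀ t ∈ B, r t ∈ M := fun t ht => subset_closure (Or.inr ⟨t, ht, rfl⟩)
  have cM : ∀ c ∈ Ct h.toNrm ab, ∀ m ∈ M, Commute c m := fun c hc m hm => by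
    induction hm using closure_induction with
    | mem x hx =>
      rcases hx with ⟨t, ht, rfl⟩ | ⟨t, ht, rfl⟩
      exacts [(d.cen h0 hc ht).1, (d.cen h0 hc ht).2]
    | one => simp
    | mul x y _ _ a b => exact a.mul_right b
    | inv x _ a => exact a.inv_right
  have hM : ∀ f : G Q, f • (1 : Q) = 1 → ∀ m ∈ M, f * m * f⁻¹ ∈ M := fun f f1 m hm => by
    induction hm using closure_induction with
    | mem x hx =>
      rcases hx with ⟨t, ht, rfl⟩ | ⟨t, ht, rfl⟩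
      · rw [(inn f1).conjl, mul_inv_cancel_right]; exact lM _ (d.hB.inn f f1 ht)
      · rw [(inn f1).conjr, mul_inv_cancel_right]; exact rM _ (d.hB.inn f f1 ht)
    | one => simp
    | mul x y _ _ a b => simpa [mul_assoc] using mul_mem a b
    | inv x _ a => simpa [mul_assoc] using inv_mem a
  obtain ⟨P⟩ : Nonempty (Sylow q M) := inferInstance
  have dec := sylow_dec (fun u hu => d.u3 u (MU hu)) P
  set S := (P : Subgroup M).map M.subtype
  have SM : S ≤ M := map_subtype_le _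
  have hS : IsPGroup q S := P.isPGroup'.map _
  have nS : ∀ m ∈ M, ∀ s ∈ S, m * s * m⁻¹ ∈ S := fun m hm s hs => by
    obtain ⟨c, hc, u, hu, rfl⟩ := dec m hm
    have h1 := mul_mem (mul_mem hu hs) (inv_mem hu)
    have := (cM c hc _ (SM h1)).eq
    rw [← mul_inv_eq_iff_eq_mul] at this
    rw [← this] at h1
    simpa [mul_assoc] using h1
  have nP : (P : Subgroup M).Normal := ⟨fun s hs m => by
    obtain ⟨s', hs', e⟩ := nS m m.2 s ⟨s, hs, rfl⟩
    rwa [show m * s * m⁻¹ = s' from Subtype.ext e.symm]⟩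
  refine ⟨{y | ∃ s ∈ S, y = s • (1 : Q)}, ⟨⟨⟨1, one_mem _, by simp⟩, ?_⟩, ?_⟩, fun e => ?_,
    orb_card hS 1⟩
  · rintro _ _ ⟨s, hs, rfl⟩ ⟨s', hs', rfl⟩
    refine ⟨_, mul_mem (nS _ (lM _ (d.u5 s (MU (SM hs)))) s' hs') hs, ?_⟩
    rw [mul_smul, mul_smul, mul_smul, (inv_smul_eq_iff (g := l _) (b := (1 : Q))).2 (mo _).symm,
      l_smul]
  · rintro f _ f1 ⟨s, hs, rfl⟩
    refine ⟨f * s * f⁻¹, ?_, by rw [mul_smul, mul_smul, inv_smul_eq_iff.2 f1.symm]⟩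
    obtain ⟨j, hj⟩ := hS ⟨s, hs⟩
    have hz : IsPGroup q (zpowers (⟨_, hM f f1 s (SM hs)⟩ : M)) := zp_pgroup (j := j)
      (Subtype.ext (by
        change (f * s * f⁻¹) ^ _ = 1
        rw [conj_pow, show s ^ q ^ j = 1 from congrArg Subtype.val hj]; simp))
    have := P.is_maximal' (hz.to_sup_of_normal_right P.isPGroup') le_sup_right
    exact ⟨_, this ▸ mem_sup_left (mem_zpowers _), rfl⟩
  · obtain ⟨t, ht, hn⟩ := d.ex
    obtain ⟨c, hc, s, hs, e'⟩ := dec _ (lM t ht)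
    have : s • (1 : Q) ∈ ({1} : Set Q) := e ▸ ⟨s, hs, rfl⟩
    apply hn
    rw [← mo t, ← l_smul, e', mul_smul, this]
    exact h.ker_one hc.1

theorem compl (h : MinN A) (s : Solv Q) (hc : A.ncard.Coprime (Nat.card h.Qt)) :
    (∃ T : Set Q, Sub T ∧ T.ncard = Nat.card h.Qt) ∨
      ∃ (N : Set Q) (q j : ℕ), Nrm N ∧ N ≠ {1} ∧ q ∣ Nat.card h.Qt ∧ N.ncard = q ^ j := by
  have ab := s.ab h
  by_cases hne : (Set.univ : Set h.Qt) = {1}
  · refine Or.inl ⟨{1}, ⟨rfl, ?_⟩, by rw [← Set.ncard_univ, hne]; simp⟩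
    rintro _ _ rfl rfl; exact om 1
  by_cases hk : h.pi.ker ≤ Ct h.toNrm ab
  · obtain ⟨q, B, U, d, hq⟩ := exists_dat h ab s hk hc hne
    by_cases h1 : {a | a ∈ A ∧ ∀ t ∈ B, t * a = a * t} = {1}
    · exact Or.inl (d.compl fun a ha e => by
        have : a ∈ {a | a ∈ A ∧ ∀ t ∈ B, t * a = a * t} := ⟨ha, e⟩
        rwa [h1] at this)
    · have := h.min _ d.nrm0 (fun _ a => a.1) h1
      obtain ⟨N, h1, h2, j, h3⟩ := d.normal fun a ha => by
        rw [← this] at ha; exact ha.2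
      exact Or.inr ⟨N, q, j, h1, h2, hq, h3⟩
  · obtain ⟨k, hk, hn⟩ := SetLike.not_le_iff_exists.1 hk
    exact Or.inl (compl_a h ab hk hn)

variable (Q) in
def Hall (P : Set ℕ) : Prop := ∃ T : Set Q, Sub T ∧ ∃ k : ℕ, T.ncard * k = Nat.card Q ∧
  (∀ p : ℕ, p.Prime → p ∣ T.ncard → p ∈ P) ∧ (∀ p : ℕ, p.Prime → p ∣ k → p ∉ P)

theorem Nrm.lt (h : Nrm A) (hne : A ≠ {1}) : Nat.card h.Qt < Nat.card Q := by
  have h1 : 1 < A.ncard := by
    rw [← Set.ncard_singleton (1 : Q)]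
    exact Set.ncard_lt_ncard (Set.ssubset_iff_subset_ne.2 ⟨by simpa using h.one, hne.symm⟩)
  have : Nonempty h.Qt := ⟨1⟩
  have := Nat.card_pos (α := h.Qt)
  rw [h.card]; nlinarith

theorem Hall.qt {P : Set ℕ} (h : Nrm A) (hA : ∀ p : ℕ, p.Prime → p ∣ A.ncard → p ∈ P)
    (H : Hall h.Qt P) : Hall Q P := by
  obtain ⟨T, hT, k, e, h1, h2⟩ := H
  refine ⟨_, h.pre_sub hT, k, by rw [h.ncard_pre, h.card, ← e]; ring, fun p hp d => ?_, h2⟩
  rw [h.ncard_pre] at d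
  exact (hp.dvd_mul.1 d).elim (h1 p hp) (hA p hp)

theorem hall (P : Set ℕ) (n : ℕ) : ∀ (Q : Type) [ALoop Q] [Finite Q], Nat.card Q = n → Solv Q →
    Hall Q P := by
  induction n using Nat.strong_induction_on with
  | _ n ih =>
  intro Q _ _ hn s
  subst hn
  by_cases hne : (Set.univ : Set Q) = {1}
  · refine ⟨Set.univ, nrm_univ.toSub, 1, by simp, fun p hp d => ?_, fun p hp d => ?_⟩
    · rw [hne, Set.ncard_singleton] at d; exact absurd d hp.not_dvd_one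
    · exact absurd d hp.not_dvd_one
  obtain ⟨A, -, h⟩ := exists_min nrm_univ hne
  obtain ⟨p, j, hp, hj⟩ := h.prime (s.ab h)
  have H := ih _ (h.lt h.ne) h.Qt rfl (s.qt _)
  have hA : ∀ q : ℕ, q.Prime → q ∣ A.ncard → q = p := fun q hq d =>
    (Nat.prime_dvd_prime_iff_eq hq hp).1 (hq.dvd_of_dvd_pow (hj ▸ d))
  by_cases hpP : p ∈ P
  · exact H.qt _ fun q hq d => hA q hq d ▸ hpP
  obtain ⟨T, hT, k, e, h1, h2⟩ := H
  by_cases hU : T = Set.univ
  · rw [hU, Set.ncard_univ] at h1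
    rcases compl h s (Nat.coprime_of_dvd fun q hq d d' => hpP (hA q hq d ▸ h1 q hq d')) with
      ⟨T, hT, e⟩ | ⟨N, q, i, hN, hN1, d, e⟩
    · exact ⟨T, hT, A.ncard, by rw [e, h.card], e ▸ h1, fun q hq d => hA q hq d ▸ hpP⟩
    · exact (ih _ (hN.lt hN1) hN.Qt rfl (s.qt _)).qt _ fun r hr d' =>
        h1 r hr ((hr.dvd_of_dvd_pow (e ▸ d')).trans d)
  · have hS := h.pre_sub hT
    let _ := hS.loop
    have hlt : Nat.card (h.cl ⁻¹' T) < Nat.card Q := by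
      rw [← Set.ncard_univ Q]
      refine Set.ncard_lt_ncard (Set.ssubset_univ_iff.2 fun e => hU (Set.eq_univ_of_forall fun x => ?_))
      obtain ⟨x, rfl⟩ := h.mk_surj x
      exact Set.eq_univ_iff_forall.1 e x
    obtain ⟨V, hV, k', e', h1', h2'⟩ := ih _ hlt _ rfl (s.sub hS)
    have hc : (Subtype.val '' V).ncard = V.ncard :=
      Set.ncard_image_of_injective _ Subtype.val_injective
    refine ⟨Subtype.val '' V, ⟨⟨1, hV.one, rfl⟩, ?_⟩, k' * k, ?_, hc ▸ h1', fun q hq d =>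
      (hq.dvd_mul.1 d).elim (h2' q hq) (h2 q hq)⟩
    · rintro _ _ ⟨a, ha, rfl⟩ ⟨b, hb, rfl⟩
      exact ⟨a * b, hV.mul ha hb, rfl⟩
    · have := h.ncard_pre T
      rw [hc, ← mul_assoc, e', h.card, ← e, Nat.card_coe_set_eq, this]; ring

end Pool.Agent.AL
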